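import Pool.Agent.helper22.DL.SpecE1

/-! # Project dl, module ERL: removable singularities -/

namespace Pool.Agent.DL

open Matrix Complex MeasureTheory Set Filter Topology
open scoped ComplexOrder Manifold ContDiff ComplexConjugate

noncomputable section

theorem ERL_zero {f : ℂ → ℂ} {z : ℂ} (hf : DifferentiableAt ℝ f z) (h : dzb f z = 0) :
    DifferentiableAt ℂ f z := by
  rw [differentiableAt_complex_iff_differentiableAt_real]
  refine ⟨hf, ?_⟩
  unfold dzb at h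
  have h1 : fderiv ℝ f z 1 + I * fderiv ℝ f z I = 0 := by
    have h2 : (fderiv ℝ f z 1 + I * fderiv ℝ f z I) / 2 * 2 = 0 := by rw [h, zero_mul]
    rwa [div_mul_cancel₀ _ (two_ne_zero)] at h2
  rw [smul_eq_mul]
  linear_combination (-I) * h1 + (fderiv ℝ f z I) * I_sq

theorem ERL_hol {f : ℂ → ℂ} {z : ℂ} (hf : DifferentiableAt ℂ f z) : dzb f z = 0 := by
  have h := (differentiableAt_complex_iff_differentiableAt_real.1 hf).2
  unfold dzb
  rw [h, smul_eq_mul]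
  linear_combination (fderiv ℝ f z 1) / 2 * I_sq

theorem ERL_add {f g : ℂ → ℂ} {z : ℂ} (hf : DifferentiableAt ℝ f z)
    (hg : DifferentiableAt ℝ g z) : dzb (fun w => f w + g w) z = dzb f z + dzb g z := by
  unfold dzb
  rw [fderiv_fun_add hf hg]
  simp only [_root_.add_apply]
  ring

theorem ERL_sub {f g : ℂ → ℂ} {z : ℂ} (hf : DifferentiableAt ℝ f z)
    (hg : DifferentiableAt ℝ g z) : dzb (fun w => f w - g w) z = dzb f z - dzb g z := by
  unfold dzb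
  rw [fderiv_fun_sub hf hg]
  simp only [_root_.sub_apply]
  ring

theorem ERL_congr {f g : ℂ → ℂ} {z : ℂ} (h : f =ᶠ[𝓝 z] g) : dzb f z = dzb g z := by
  unfold dzb
  rw [h.fderiv_eq]

theorem ERL_lip {E : Type} [NormedAddCommGroup E] [NormedSpace ℝ E] {φ : ℂ → E} {U : Set ℂ}
    {z₀ : ℂ} (hU : IsOpen U) (hz : z₀ ∈ U) (hφ : ContDiffOn ℝ 1 φ U) :
    ∃ r M : ℝ, 0 < r ∧ Metric.ball z₀ r ⊆ U ∧ (∀ z ∈ Metric.ball z₀ r, ‖φ z‖ ≤ M) ∧
      ∀ z ∈ Metric.ball z₀ r, ∀ z' ∈ Metric.ball z₀ r, ‖φ z - φ z'‖ ≤ M * ‖z - z'‖ ^ (1 : ℝ) := by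
  have h1 : ContDiffAt ℝ 1 φ z₀ := hφ.contDiffAt (hU.mem_nhds hz)
  obtain ⟨K, t, ht, hK⟩ := h1.exists_lipschitzOnWith
  obtain ⟨r, hr, hrt⟩ := Metric.mem_nhds_iff.1 (Filter.inter_mem ht (hU.mem_nhds hz))
  have hK0 : (0 : ℝ) ≤ K := K.coe_nonneg
  have hn : 0 ≤ ‖φ z₀‖ := norm_nonneg _
  refine ⟨r, K + (‖φ z₀‖ + K * r), hr, fun z hz => (hrt hz).2, ?_, ?_⟩
  · intro z hz
    have h2 := hK.dist_le_mul z (hrt hz).1 z₀ (hrt (Metric.mem_ball_self hr)).1
    have h4 : dist z z₀ ≤ r := (Metric.mem_ball.1 hz).le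
    have h5 : (K : ℝ) * dist z z₀ ≤ K * r := mul_le_mul_of_nonneg_left h4 hK0
    have h3 : ‖φ z‖ ≤ ‖φ z₀‖ + dist (φ z) (φ z₀) := by
      rw [dist_eq_norm]
      calc ‖φ z‖ = ‖φ z₀ + (φ z - φ z₀)‖ := by rw [add_sub_cancel]
        _ ≤ _ := norm_add_le _ _
    linarith
  · intro z hz z' hz'
    have h2 := hK.dist_le_mul z (hrt hz).1 z' (hrt hz').1
    rw [dist_eq_norm, dist_eq_norm] at h2
    rw [Real.rpow_one]
    refine h2.trans (mul_le_mul_of_nonneg_right ?_ (norm_nonneg _))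
    have : 0 ≤ (K : ℝ) * r := mul_nonneg hK0 hr.le
    linarith

theorem ERL_ae_ne : ∀ᵐ ξ ∂(volume : Measure ℂ), ξ ≠ 0 :=
  compl_mem_ae_iff.2 (measure_singleton (0 : ℂ))

theorem ERL_TC {φ φ' : ℂ → ℂ} {S : Set ℂ} (h : ∀ z, z ≠ 0 → φ z = φ' z) : TC φ S = TC φ' S := by
  funext z
  unfold TC
  congr 1
  refine integral_congr_ae ?_
  filter_upwards [ae_restrict_of_ae ERL_ae_ne] with ξ hξ
  rw [h ξ hξ]

/-- Removable singularities. -/
theorem ERL (hB : ERB_stmt) (hC : ERC_stmt) (hD : ERD_stmt) (hG' : ERG_stmt) (hJ : ERJ_stmt)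
    (hKK : ERK_stmt) : ERL_stmt := by
  intro n V G hG hV hdz hbd
  obtain ⟨M, ρ, hρ, hM⟩ := hbd
  have hU1 : IsOpen (Metric.ball (0 : ℂ) 1 \ {0}) := Metric.isOpen_ball.sdiff isClosed_singleton
  -- the composition
  have hGV : ContDiffOn ℝ 1 (fun z => G z (V z)) (Metric.ball (0 : ℂ) 1 \ {0}) := by
    have h1 : ContDiffOn ℝ 1 (fun x : ℂ × (Fin n → ℂ) => G x.1 x.2) (Metric.ball 0 1 ×ˢ univ) :=
      hG.of_le (by exact_mod_cast le_top)
    exact h1.comp (contDiffOn_id.prodMk hV) (fun z hz => ⟨hz.1, mem_univ _⟩)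
  have hVr : ∀ i, ∀ z ∈ Metric.ball (0 : ℂ) 1 \ {0}, DifferentiableAt ℝ (fun w => V w i) z := by
    intro i z hz
    have h1 : DifferentiableAt ℝ V z := (hV.contDiffAt (hU1.mem_nhds hz)).differentiableAt one_ne_zero
    exact differentiableAt_pi.1 h1 i
  -- the small disc
  set ρ₀ : ℝ := min ρ 1 / 2 with hρ₀
  have h0 : 0 < ρ₀ := by positivity
  have h01 : ρ₀ < 1 := by
    have := min_le_right ρ 1
    linarith
  have h0ρ : ρ₀ ≤ ρ := by
    have := min_le_left ρ 1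
    have h2 : 0 < min ρ 1 := lt_min hρ one_pos
    linarith
  have hM' : ∀ z ∈ Metric.ball (0 : ℂ) ρ₀ \ {0}, ‖V z‖ ≤ M := fun z hz =>
    hM z ⟨Metric.ball_subset_ball h0ρ hz.1, hz.2⟩
  have hBU : Metric.ball (0 : ℂ) ρ₀ \ {0} ⊆ Metric.ball (0 : ℂ) 1 \ {0} :=
    fun z hz => ⟨Metric.ball_subset_ball h01.le hz.1, hz.2⟩
  have hU0 : IsOpen (Metric.ball (0 : ℂ) ρ₀ \ {0}) := Metric.isOpen_ball.sdiff isClosed_singleton
  have hres : (volume : Measure ℂ).restrict (Metric.ball (0 : ℂ) ρ₀ \ {0}) =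
      volume.restrict (Metric.ball (0 : ℂ) ρ₀) :=
    Measure.restrict_congr_set (sdiff_null_ae_eq_self (measure_singleton (0 : ℂ)))
  -- the density
  set V₁ : ℂ → Fin n → ℂ := Function.update V 0 0 with hV₁
  have hV₁n : ∀ z, z ≠ 0 → V₁ z = V z := fun z hz => Function.update_of_ne hz _ _
  have hV₁b : ∀ z ∈ Metric.ball (0 : ℂ) ρ₀, ‖V₁ z‖ ≤ max M 0 := by
    intro z hz
    by_cases h : z = 0
    · subst h
      rw [hV₁, Function.update_self, norm_zero]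
      exact le_max_right _ _
    · rw [hV₁n z h]
      exact (hM' z ⟨hz, h⟩).trans (le_max_left _ _)
  set Φ : ℂ → Fin n → ℂ := fun z => G z (V₁ z) with hΦ
  obtain ⟨M₁, hM₁⟩ : ∃ M₁ : ℝ, ∀ z ∈ Metric.ball (0 : ℂ) ρ₀, ‖Φ z‖ ≤ M₁ := by
    have hcomp : IsCompact (Metric.closedBall (0 : ℂ) ρ₀ ×ˢ
        Metric.closedBall (0 : Fin n → ℂ) (max M 0)) :=
      (isCompact_closedBall _ _).prod (isCompact_closedBall _ _)
    obtain ⟨C, hC⟩ := hcomp.exists_bound_of_continuousOn (f := fun x : ℂ × (Fin n → ℂ) => G x.1 x.2)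
      (hG.continuousOn.mono (fun x hx => ⟨Metric.closedBall_subset_ball h01 hx.1, mem_univ _⟩))
    refine ⟨C, fun z hz => hC (z, V₁ z) ⟨Metric.ball_subset_closedBall hz, ?_⟩⟩
    rw [mem_closedBall_zero_iff]
    exact hV₁b z hz
  have hΦc : ContinuousOn Φ (Metric.ball (0 : ℂ) 1 \ {0}) := by
    refine hGV.continuousOn.congr fun z hz => ?_
    rw [hΦ]
    dsimp only
    rw [hV₁n z hz.2]
  have hΦd : ContDiffOn ℝ 1 Φ (Metric.ball (0 : ℂ) 1 \ {0}) := by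
    refine hGV.congr fun z hz => ?_
    rw [hΦ]
    dsimp only
    rw [hV₁n z hz.2]
  have hΦm : ∀ i, AEStronglyMeasurable (fun z => Φ z i) (volume.restrict (Metric.ball (0 : ℂ) ρ₀)) := by
    intro i
    rw [← hres]
    have h1 : ContinuousOn (fun z => Φ z i) (Metric.ball (0 : ℂ) ρ₀ \ {0}) :=
      (continuousOn_pi.1 hΦc i).mono hBU
    exact h1.aestronglyMeasurable hU0.measurableSet
  have hΦi : ∀ i, IntegrableOn (fun z => Φ z i) (Metric.ball (0 : ℂ) ρ₀) := by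
    intro i
    have : IsFiniteMeasure ((volume : Measure ℂ).restrict (Metric.ball (0 : ℂ) ρ₀)) :=
      ⟨by rw [Measure.restrict_apply_univ]; exact measure_ball_lt_top⟩
    refine Integrable.of_bound (hΦm i) M₁ ?_
    refine (ae_restrict_iff' Metric.isOpen_ball.measurableSet).2 (Eventually.of_forall ?_)
    intro z hz
    exact (norm_le_pi_norm (Φ z) i).trans (hM₁ z hz)
  obtain ⟨C, hCC⟩ := hC ρ₀ M₁ h0
  have hCi := fun i => hCC (fun z => Φ z i) 0 (hΦm i)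
    (fun z hz => (norm_le_pi_norm (Φ z) i).trans (hM₁ z hz))
  set T : Fin n → ℂ → ℂ := fun i => TC (fun z => Φ z i) (Metric.ball (0 : ℂ) ρ₀) with hT
  -- the Cauchy transform is C1 off 0
  have hTd : ∀ i, ∀ z₁ ∈ Metric.ball (0 : ℂ) ρ₀ \ {0}, DifferentiableAt ℝ (T i) z₁ ∧
      dzb (T i) z₁ = Φ z₁ i := by
    intro i z₁ hz₁
    obtain ⟨r, M₂, hr, hrU, hb, hl⟩ := ERL_lip hU0 hz₁ (hΦd.mono hBU)
    have hb' : ∀ z ∈ Metric.ball z₁ r, ‖Φ z i‖ ≤ M₂ := fun z hz =>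
      (norm_le_pi_norm (Φ z) i).trans (hb z hz)
    have hl' : ∀ z ∈ Metric.ball z₁ r, ∀ z' ∈ Metric.ball z₁ r, ‖Φ z i - Φ z' i‖ ≤
        M₂ * ‖z - z'‖ ^ (1 : ℝ) := fun z hz z' hz' =>
      (norm_le_pi_norm (Φ z - Φ z') i).trans (hl z hz z' hz')
    obtain ⟨-, h, hh, hrep⟩ := hB (T i) (fun z => Φ z i) 0 z₁ ρ₀ r M₂ (fun _ => 0) hr
      (fun z hz => (hrU hz).1) (hΦi i) hb' (differentiableOn_const 0) (fun z _ => by
        rw [hT, add_zero])
    obtain ⟨h1, h2⟩ := hD (fun z => Φ z i) z₁ r M₂ 1 hr one_pos le_rfl hb' hl'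
    have hz₁r : z₁ ∈ Metric.ball z₁ r := Metric.mem_ball_self hr
    have hnb : Metric.ball z₁ r ∈ 𝓝 z₁ := Metric.isOpen_ball.mem_nhds hz₁r
    have e1 : T i =ᶠ[𝓝 z₁] fun z => TC (fun z => Φ z i) (Metric.ball z₁ r) z + h z :=
      Filter.eventually_of_mem hnb hrep
    have d1 : DifferentiableAt ℝ (TC (fun z => Φ z i) (Metric.ball z₁ r)) z₁ :=
      (h1.contDiffAt hnb).differentiableAt one_ne_zero
    have d2 : DifferentiableAt ℂ h z₁ := hh.differentiableAt hnb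
    refine ⟨(e1.differentiableAt_iff).2 (d1.add (d2.restrictScalars ℝ)), ?_⟩
    rw [ERL_congr e1, ERL_add d1 (d2.restrictScalars ℝ), ERL_hol d2, add_zero]
    exact h2 z₁ hz₁r
  -- the holomorphic part
  set w : Fin n → ℂ → ℂ := fun i z => V z i - T i z with hw
  have hwd : ∀ i, DifferentiableOn ℂ (w i) (Metric.ball (0 : ℂ) ρ₀ \ {0}) := by
    intro i z hz
    have h1 := hVr i z (hBU hz)
    obtain ⟨h2, h3⟩ := hTd i z hz
    refine (ERL_zero (h1.sub h2) ?_).differentiableWithinAt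
    have h4 : dzb (fun w => V w i - T i w) z = 0 := by
      rw [ERL_sub h1 h2, h3, hdz z (hBU hz) i, hΦ]
      dsimp only
      rw [hV₁n z hz.2, sub_self]
    exact h4
  have hwb : ∀ i, BddAbove (norm ∘ w i '' (Metric.ball (0 : ℂ) ρ₀ \ {0})) := by
    intro i
    refine ⟨M + C, ?_⟩
    rintro _ ⟨z, hz, rfl⟩
    have h1 : ‖V z i‖ ≤ M := (norm_le_pi_norm (V z) i).trans (hM' z hz)
    have h2 : ‖T i z‖ ≤ C := (hCi i).2.1 z
    exact (norm_sub_le _ _).trans (add_le_add h1 h2)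
  set H : Fin n → ℂ → ℂ := fun i => Function.update (w i) 0 (limUnder (𝓝[≠] 0) (w i)) with hH
  have hHd : ∀ i, DifferentiableOn ℂ (H i) (Metric.ball (0 : ℂ) ρ₀) := fun i =>
    Complex.differentiableOn_update_limUnder_of_bddAbove
      (Metric.isOpen_ball.mem_nhds (Metric.mem_ball_self h0)) (hwd i) (hwb i)
  -- the extension
  set V' : ℂ → Fin n → ℂ := Function.update V 0 (fun i => T i 0 + H i 0) with hV'
  have hV'n : ∀ z, z ≠ 0 → V' z = V z := fun z hz => Function.update_of_ne hz _ _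
  have hV'B : ∀ z, ∀ i, V' z i = T i z + H i z := by
    intro z i
    by_cases h : z = 0
    · subst h
      rw [hV', Function.update_self]
    · rw [hV'n z h, hH]
      dsimp only
      rw [Function.update_of_ne h, hw]
      ring
  have hΦ' : ∀ i z, z ≠ 0 → G z (V' z) i = Φ z i := by
    intro i z hz
    rw [hΦ]
    dsimp only
    rw [hV'n z hz, hV₁n z hz]
  have hEv : ∀ z ∈ Metric.ball (0 : ℂ) 1 \ {0}, V' =ᶠ[𝓝 z] V := by
    intro z hz
    filter_upwards [hU1.mem_nhds hz] with y hy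
    exact hV'n y hy.2
  -- the hypotheses of ERJ and ERK
  have hyp : ∀ z₀ ∈ Metric.ball (0 : ℂ) 1, ∃ ρ : ℝ, 0 < ρ ∧ Metric.ball z₀ ρ ⊆ Metric.ball (0 : ℂ) 1 ∧
      AEStronglyMeasurable V' (volume.restrict (Metric.ball z₀ ρ)) ∧
      (∃ M : ℝ, ∀ z ∈ Metric.ball z₀ ρ, ‖V' z‖ ≤ M) ∧
      ∀ i, RepAt (fun z => V' z i) (fun z => G z (V' z) i) z₀ ρ := by
    intro z₀ hz₀
    by_cases hz : z₀ = 0
    · subst hz
      refine ⟨ρ₀, h0, Metric.ball_subset_ball h01.le, ?_, ⟨max M ‖V' 0‖, ?_⟩, ?_⟩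
      · rw [← hres]
        have h1 : ContinuousOn V' (Metric.ball (0 : ℂ) ρ₀ \ {0}) :=
          (hV.continuousOn.mono hBU).congr fun z hz => hV'n z hz.2
        exact h1.aestronglyMeasurable hU0.measurableSet
      · intro z hz
        by_cases h : z = 0
        · rw [h]
          exact le_max_right _ _
        · rw [hV'n z h]
          exact (hM' z ⟨hz, h⟩).trans (le_max_left _ _)
      · intro i
        refine ⟨?_, H i, hHd i, ?_⟩
        · refine (hΦi i).congr_fun_ae ?_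
          filter_upwards [ae_restrict_of_ae ERL_ae_ne] with ξ hξ
          exact (hΦ' i ξ hξ).symm
        · intro z _
          rw [ERL_TC (hΦ' i)]
          exact hV'B z i
    · have hz₁ : z₀ ∈ Metric.ball (0 : ℂ) 1 \ {0} := ⟨hz₀, hz⟩
      obtain ⟨r, M₂, hr, hrU, hb, hl⟩ := ERL_lip hU1 hz₁ (hV.prodMk hΦd)
      have hVc : ContinuousOn V' (Metric.ball z₀ r) :=
        (hV.continuousOn.mono hrU).congr fun z hz => hV'n z (hrU hz).2
      refine ⟨r, hr, fun z hz => (hrU hz).1, ?_, ⟨M₂, ?_⟩, ?_⟩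
      · exact hVc.aestronglyMeasurable Metric.isOpen_ball.measurableSet
      · intro z hz
        rw [hV'n z (hrU hz).2]
        exact (norm_fst_le (V z, Φ z)).trans (hb z hz)
      · intro i
        refine hG' (fun z => V' z i) (fun z => G z (V' z) i) z₀ r M₂ 1 hr one_pos le_rfl ?_ ?_ ?_ ?_
        · have h1 : ContDiffOn ℝ 1 V' (Metric.ball z₀ r) :=
            (hV.mono hrU).congr fun z hz => hV'n z (hrU hz).2
          exact contDiffOn_pi.1 h1 i
        · intro z hz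
          have h1 : (fun y => V' y i) =ᶠ[𝓝 z] fun y => V y i := by
            filter_upwards [hEv z (hrU hz)] with y hy
            rw [hy]
          rw [ERL_congr h1, hdz z (hrU hz) i, hV'n z (hrU hz).2]
        · intro z hz
          rw [hΦ' i z (hrU hz).2]
          exact ((norm_le_pi_norm (Φ z) i).trans (norm_snd_le (V z, Φ z))).trans (hb z hz)
        · intro z hz z' hz'
          rw [hΦ' i z (hrU hz).2, hΦ' i z' (hrU hz').2]
          exact ((norm_le_pi_norm (Φ z - Φ z') i).trans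
            (norm_snd_le ((V z, Φ z) - (V z', Φ z')))).trans (hl z hz z' hz')
  obtain ⟨hc1, hc2⟩ := hJ n V' G (Metric.ball 0 1) Metric.isOpen_ball hG hyp
  have hc3 := hKK n V' G (Metric.ball 0 1) Metric.isOpen_ball hG hc1 (fun z₀ hz₀ => by
    obtain ⟨r, h1, h2, -, -, h3⟩ := hyp z₀ hz₀
    exact ⟨r, h1, h2, h3⟩)
  exact ⟨V', hc3, fun z hz => hV'n z hz.2, hc2⟩

end

end Pool.Agent.DL
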