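import Pool.Agent.helper67.DL.SpecL

/-!
# dl:VA: stage A of the scalar comparison (from MX, LA, RA)
-/

namespace Pool.Agent.DL

open Matrix Complex
open scoped ComplexOrder

noncomputable section

/-- The comparison function. -/
def VA_g (ρ r : ℝ) : ℝ := (Real.log ρ - Real.log r + (r ^ 2 / ρ ^ 2 - 1) / 2) / 2

theorem VA_deriv (ρ r : ℝ) (hr : 0 < r) :
    HasDerivAt (VA_g ρ) ((-(1 / r) + r / ρ ^ 2) / 2) r := by
  have h1 := Real.hasDerivAt_log hr.ne'
  have h2 : HasDerivAt (fun x : ℝ => x ^ 2) (2 * r) r := by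
    simpa using hasDerivAt_pow 2 r
  have h3 := (((h1.const_sub (Real.log ρ)).add
    (((h2.div_const (ρ ^ 2)).sub_const 1).div_const 2)).div_const 2)
  have e : ((-(1 / r) + r / ρ ^ 2) / 2) = (-r⁻¹ + 2 * r / ρ ^ 2 / 2) / 2 := by
    rw [one_div]; ring
  rw [e]
  exact h3

theorem VA_deriv2 (ρ r : ℝ) (hr : 0 < r) :
    iteratedDeriv 2 (VA_g ρ) r = (1 / r ^ 2 + 1 / ρ ^ 2) / 2 := by
  rw [iteratedDeriv_succ, iteratedDeriv_one]
  have h : deriv (VA_g ρ) =ᶠ[nhds r] fun x => (-(1 / x) + x / ρ ^ 2) / 2 := by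
    filter_upwards [lt_mem_nhds hr] with x hx
    exact (VA_deriv ρ x hx).deriv
  rw [h.deriv_eq]
  have h1 := (hasDerivAt_inv hr.ne')
  have h2 := ((h1.neg).add ((hasDerivAt_id r).div_const (ρ ^ 2))).div_const 2
  have h3 : HasDerivAt (fun x : ℝ => (-(1 / x) + x / ρ ^ 2) / 2)
      ((-(-(r ^ 2)⁻¹) + 1 / ρ ^ 2) / 2) r := by
    have : (fun x : ℝ => (-(1 / x) + x / ρ ^ 2) / 2)
        = fun x => (-(x⁻¹) + id x / ρ ^ 2) / 2 := by
      funext x; simp [one_div]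
    rw [this]
    exact h2
  rw [h3.deriv]
  rw [neg_neg, one_div (r ^ 2)]

theorem VA_contDiff (ρ r : ℝ) (hr : 0 < r) : ContDiffAt ℝ 2 (VA_g ρ) r := by
  have h1 : ContDiffAt ℝ 2 Real.log r := Real.contDiffAt_log.2 hr.ne'
  unfold VA_g
  exact (((contDiffAt_const.sub h1).add
    ((((contDiffAt_id.pow 2).div_const _).sub contDiffAt_const).div_const _)).div_const _)

theorem VA_q (t : ℝ) (z : ℂ) : ‖qq t z‖ = t ^ 2 * (‖z - 1‖ * ‖1 + z‖) := by
  have : qq t z = (t : ℂ) ^ 2 * (-(z - 1) * (1 + z)) := by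
    unfold qq; ring
  rw [this]
  simp only [norm_mul, norm_pow, norm_neg, Complex.norm_real, Real.norm_eq_abs, sq_abs]

theorem VA_main (hMX : MX_stmt) (hLA : LA_stmt) (hRA : RA_stmt) (t : ℝ) (W L : ℂ → ℝ)
    (hS : SH t W L) (z₀ : ℂ) (h0 : 0 < ‖z₀ - 1‖) (h1 : ‖z₀ - 1‖ ≤ 1 / (4 * t)) :
    VA_g (1 / (4 * t)) ‖z₀ - 1‖ ≤ -Real.log ‖qq t z₀‖ - 2 * L z₀ := by
  by_contra hcon
  push Not at hcon
  obtain ⟨ht, hW, hsm, heq, hle⟩ := hS
  have ht0 : 0 < t := by linarith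
  set ρ : ℝ := 1 / (4 * t) with hρ
  have hρ0 : 0 < ρ := by positivity
  have hρ4 : ρ ≤ 1 / 4 := by
    rw [hρ]
    apply one_div_le_one_div_of_le <;> linarith
  have hball : ∀ z : ℂ, ‖z - 1‖ ≤ 1 / 4 → z ∈ Metric.ball (0 : ℂ) 3 := by
    intro z hz
    rw [mem_ball_zero_iff]
    have : ‖z‖ = ‖(z - 1) + 1‖ := by congr 1; ring
    rw [this]
    have := norm_add_le (z - 1) 1
    simp only [norm_one] at this
    linarith
  have hplus : ∀ z : ℂ, ‖z - 1‖ ≤ 1 / 4 → 7 / 4 ≤ ‖1 + z‖ ∧ ‖1 + z‖ ≤ 2 + ‖z - 1‖ := by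
    intro z hz
    have e : (1 + z) = 2 + (z - 1) := by ring
    have h2 : ‖(2 : ℂ)‖ = 2 := by simp
    constructor
    · have := norm_sub_le (1 + z) (z - 1)
      have e2 : (1 + z) - (z - 1) = 2 := by ring
      rw [e2, h2] at this
      linarith
    · rw [e]
      have := norm_add_le (2 : ℂ) (z - 1)
      rw [h2] at this
      exact this
  -- bound of `L`
  have hLc : ContinuousOn L (Metric.closedBall (1 : ℂ) (1 / 4)) := by
    refine hsm.continuousOn.mono ?_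
    intro z hz
    rw [mem_closedBall_iff_norm] at hz
    exact hball z hz
  obtain ⟨M, hM⟩ := (isCompact_closedBall (1 : ℂ) (1 / 4)).exists_bound_of_continuousOn hLc
  set K : ℝ := 2 * Real.log t + Real.log (9 / 4) + 2 * M + (1 / 2) * Real.log ρ with hK
  set δ : ℝ := min (‖z₀ - 1‖ / 2) (Real.exp (-2 * K - 1)) with hδ
  have hδ0 : 0 < δ := lt_min (by linarith) (Real.exp_pos _)
  have hδz : δ < ‖z₀ - 1‖ := lt_of_le_of_lt (min_le_left _ _) (by linarith)
  have hδρ : δ < ρ := lt_of_lt_of_le hδz h1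
  have hδK : Real.log δ < -2 * K := by
    have : Real.log δ ≤ Real.log (Real.exp (-2 * K - 1)) :=
      Real.log_le_log hδ0 (min_le_right _ _)
    rw [Real.log_exp] at this
    linarith
  set V : ℂ → ℝ := fun w => -Real.log ‖qq t w‖ - 2 * L w with hV
  set F : ℂ → ℝ := fun w => V w - VA_g ρ ‖w - 1‖ with hF
  set A : Set ℂ := Metric.closedBall (1 : ℂ) ρ ∩ (Metric.ball (1 : ℂ) δ)ᶜ with hA
  have hAc : IsCompact A := (isCompact_closedBall (1 : ℂ) ρ).inter_right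
    Metric.isOpen_ball.isClosed_compl
  have hAm : ∀ w, w ∈ A ↔ ‖w - 1‖ ≤ ρ ∧ δ ≤ ‖w - 1‖ := by
    intro w
    rw [hA, Set.mem_inter_iff, Set.mem_compl_iff, mem_closedBall_iff_norm, mem_ball_iff_norm,
      not_lt]
  have hqpos : ∀ w : ℂ, 0 < ‖w - 1‖ → ‖w - 1‖ ≤ 1 / 4 → 0 < ‖qq t w‖ := by
    intro w hw hw4
    rw [VA_q]
    have := (hplus w hw4).1
    positivity
  have hq0 : ∀ w : ℂ, 0 < ‖w - 1‖ → ‖w - 1‖ ≤ 1 / 4 → qq t w ≠ 0 := by
    intro w hw hw4
    exact norm_pos_iff.1 (hqpos w hw hw4)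
  have hqan : ∀ w : ℂ, AnalyticAt ℂ (qq t) w := by
    intro w
    have : Differentiable ℂ (qq t) := by
      unfold qq; fun_prop
    exact this.analyticAt w
  have hLcd : ∀ w : ℂ, ‖w - 1‖ ≤ 1 / 4 → ContDiffAt ℝ 2 L w := by
    intro w hw
    exact hsm.contDiffAt (Metric.isOpen_ball.mem_nhds (hball w hw))
  have hlogcd : ∀ w : ℂ, 0 < ‖w - 1‖ → ‖w - 1‖ ≤ 1 / 4 →
      ContDiffAt ℝ 2 (fun w => Real.log ‖qq t w‖) w ∧ lap (fun w => Real.log ‖qq t w‖) w = 0 :=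
    fun w hw hw4 => hRA.2 (qq t) w (hqan w) (hq0 w hw hw4)
  have hVcd : ∀ w : ℂ, 0 < ‖w - 1‖ → ‖w - 1‖ ≤ 1 / 4 → ContDiffAt ℝ 2 V w := by
    intro w hw hw4
    exact ((hlogcd w hw hw4).1.neg).sub (contDiffAt_const.mul (hLcd w hw4))
  have hgcd : ∀ w : ℂ, 0 < ‖w - 1‖ → ContDiffAt ℝ 2 (fun w => VA_g ρ ‖w - 1‖) w ∧
      lap (fun w => VA_g ρ ‖w - 1‖) w = 4 * t ^ 2 := by
    intro w hw
    have hne : w ≠ 1 := by
      intro h
      rw [h] at hw
      simp at hw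
    obtain ⟨c1, c2⟩ := hRA.1 (VA_g ρ) 1 w hne (VA_contDiff ρ _ hw)
    refine ⟨c1, ?_⟩
    rw [c2, VA_deriv2 ρ _ hw, (VA_deriv ρ _ hw).deriv, hρ]
    field_simp
    ring
  have hFc : ContinuousOn F A := by
    intro w hw
    obtain ⟨w1, w2⟩ := (hAm w).1 hw
    have w3 : 0 < ‖w - 1‖ := lt_of_lt_of_le hδ0 w2
    have w4 : ‖w - 1‖ ≤ 1 / 4 := le_trans w1 hρ4
    exact ((hVcd w w3 w4).continuousAt.sub (hgcd w w3).1.continuousAt).continuousWithinAt
  have hz₀A : z₀ ∈ A := (hAm z₀).2 ⟨h1, hδz.le⟩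
  obtain ⟨z₁, hz₁A, hmin⟩ := hAc.exists_isMinOn ⟨z₀, hz₀A⟩ hFc
  have hF0 : F z₁ < 0 := by
    have := hmin hz₀A
    have h2 : F z₀ < 0 := by
      simp only [hF, hV]
      linarith
    exact lt_of_le_of_lt this h2
  obtain ⟨r1, r2⟩ := (hAm z₁).1 hz₁A
  set r := ‖z₁ - 1‖ with hr
  have r0 : 0 < r := lt_of_lt_of_le hδ0 r2
  have r4 : r ≤ 1 / 4 := le_trans r1 hρ4
  have hVlog : V z₁ = -(2 * Real.log t + Real.log r + Real.log ‖1 + z₁‖) - 2 * L z₁ := by
    simp only [hV]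
    have p1 := (hplus z₁ r4).1
    rw [VA_q, Real.log_mul (by positivity) (by positivity), Real.log_pow,
      Real.log_mul (by positivity) (by positivity)]
    push_cast
    ring
  -- the outer circle
  have hne1 : r ≠ ρ := by
    intro h
    have hle' := hle z₁ (hball z₁ r4)
    have hq := hqpos z₁ r0 r4
    have : Real.log (‖qq t z₁‖ * Real.exp (2 * L z₁)) ≤ 0 :=
      Real.log_nonpos (by positivity) hle'
    rw [Real.log_mul hq.ne' (Real.exp_pos _).ne', Real.log_exp] at this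
    have hg : VA_g ρ r = 0 := by
      rw [h]
      unfold VA_g
      have : ρ ^ 2 / ρ ^ 2 = 1 := div_self (by positivity)
      rw [this]
      ring
    have : 0 ≤ F z₁ := by
      simp only [hF, hV, ← hr, hg]
      linarith
    linarith
  -- the inner circle
  have hne2 : r ≠ δ := by
    intro h
    have p := hplus z₁ r4
    have b1 : Real.log ‖1 + z₁‖ ≤ Real.log (9 / 4) :=
      Real.log_le_log (by linarith [p.1]) (by linarith [p.2])
    have b2 : L z₁ ≤ M := by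
      have := hM z₁ (by rw [mem_closedBall_iff_norm]; exact r4)
      exact le_trans (le_abs_self _) this
    have b3 : δ ^ 2 / ρ ^ 2 ≤ 1 := by
      rw [div_le_one (by positivity)]
      exact pow_le_pow_left₀ hδ0.le hδρ.le 2
    have : 0 < F z₁ := by
      show 0 < V z₁ - VA_g ρ r
      rw [hVlog]
      unfold VA_g
      rw [h]
      rw [hK] at hδK
      linarith
    linarith
  have r1' : r < ρ := lt_of_le_of_ne r1 hne1
  have r2' : δ < r := lt_of_le_of_ne r2 (Ne.symm hne2)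
  -- local maximum of `-F`
  have hloc : IsLocalMax (fun w => (-1) * V w + 1 * VA_g ρ ‖w - 1‖) z₁ := by
    have hopen : IsOpen {w : ℂ | δ < ‖w - 1‖ ∧ ‖w - 1‖ < ρ} := by
      have hc : Continuous (fun w : ℂ => ‖w - 1‖) := (continuous_id.sub continuous_const).norm
      exact (isOpen_lt continuous_const hc).inter (isOpen_lt hc continuous_const)
    filter_upwards [hopen.mem_nhds ⟨r2', r1'⟩] with w hw
    have hwA : w ∈ A := (hAm w).2 ⟨hw.2.le, hw.1.le⟩
    have hm : F z₁ ≤ F w := hmin hwA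
    simp only [hF] at hm
    linarith
  have hcd : ContDiffAt ℝ 2 (fun w => (-1) * V w + 1 * VA_g ρ ‖w - 1‖) z₁ :=
    (contDiffAt_const.mul (hVcd z₁ r0 r4)).add (contDiffAt_const.mul (hgcd z₁ r0).1)
  have hlap := hMX _ z₁ hcd hloc
  rw [hLA.1 V (fun w => VA_g ρ ‖w - 1‖) z₁ (-1) 1 (hVcd z₁ r0 r4) (hgcd z₁ r0).1,
    (hgcd z₁ r0).2] at hlap
  have hVlap : lap V z₁ = -2 * lap L z₁ := by
    have e : V = fun w => (-1) * Real.log ‖qq t w‖ + (-2) * L w := by
      funext w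
      simp only [hV]
      ring
    rw [e, hLA.1 (fun w => Real.log ‖qq t w‖) L z₁ (-1) (-2) (hlogcd z₁ r0 r4).1
      (hLcd z₁ r4), (hlogcd z₁ r0 r4).2]
    ring
  rw [hVlap, heq z₁ (hball z₁ r4)] at hlap
  obtain ⟨W1, W2⟩ := hW z₁ (hball z₁ r4)
  have hq := hqpos z₁ r0 r4
  -- `exp (-2L) = |q| exp V`
  have e1 : Real.exp (-(2 * L z₁)) = ‖qq t z₁‖ * Real.exp (V z₁) := by
    simp only [hV]
    rw [show -Real.log ‖qq t z₁‖ - 2 * L z₁ = -(2 * L z₁) - Real.log ‖qq t z₁‖ by ring,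
      Real.exp_sub, Real.exp_log hq]
    field_simp
  have e2 : Real.exp (V z₁) ≤ Real.sqrt (ρ / r) := by
    have hVg : V z₁ ≤ VA_g ρ r := by
      have := hF0
      simp only [hF] at this
      linarith
    have hg : VA_g ρ r ≤ Real.log (Real.sqrt (ρ / r)) := by
      rw [Real.log_sqrt (by positivity), Real.log_div hρ0.ne' r0.ne']
      unfold VA_g
      have : r ^ 2 / ρ ^ 2 ≤ 1 := by
        rw [div_le_one (by positivity)]
        exact pow_le_pow_left₀ r0.le r1 2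
      linarith
    calc Real.exp (V z₁) ≤ Real.exp (Real.log (Real.sqrt (ρ / r))) :=
          Real.exp_le_exp.2 (hVg.trans hg)
      _ = Real.sqrt (ρ / r) := Real.exp_log (Real.sqrt_pos.2 (by positivity))
  have e3 : r * Real.sqrt (ρ / r) ≤ ρ := by
    have h3 : Real.sqrt (ρ / r) ≤ ρ / r := by
      rw [Real.sqrt_le_left (by positivity)]
      have : 1 ≤ ρ / r := by
        rw [le_div_iff₀ r0]; linarith
      nlinarith
    calc r * Real.sqrt (ρ / r) ≤ r * (ρ / r) := mul_le_mul_of_nonneg_left h3 r0.le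
      _ = ρ := by field_simp
  have e4 : ‖qq t z₁‖ * Real.exp (V z₁) ≤ t ^ 2 * (9 / 16) := by
    have hs : 0 ≤ Real.sqrt (ρ / r) := Real.sqrt_nonneg _
    calc ‖qq t z₁‖ * Real.exp (V z₁) ≤ ‖qq t z₁‖ * Real.sqrt (ρ / r) :=
          mul_le_mul_of_nonneg_left e2 hq.le
      _ = t ^ 2 * ((r * Real.sqrt (ρ / r)) * ‖1 + z₁‖) := by
          rw [VA_q]; ring
      _ ≤ t ^ 2 * ((1 / 4) * (9 / 4)) := by
          apply mul_le_mul_of_nonneg_left _ (by positivity)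
          apply mul_le_mul (by linarith) _ (norm_nonneg _) (by norm_num)
          have := (hplus z₁ r4).2
          rw [← hr] at this
          linarith
      _ = t ^ 2 * (9 / 16) := by ring
  rw [e1] at hlap
  have e5 : 0 ≤ ‖qq t z₁‖ ^ 2 * Real.exp (2 * L z₁) := by positivity
  have hE : 0 ≤ ‖qq t z₁‖ * Real.exp (V z₁) := by positivity
  have ht2 : 0 < t ^ 2 := by positivity
  nlinarith [mul_nonneg (by linarith : (0:ℝ) ≤ W z₁) e5,
    mul_le_mul W2 e4 hE (by norm_num : (0:ℝ) ≤ 2)]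

theorem VA (hMX : MX_stmt) (hLA : LA_stmt) (hRA : RA_stmt) : VA_stmt := by
  intro t W L hS z hz
  have ht : 1 ≤ t := hS.ht
  have ht0 : 0 < t := by linarith
  have h := VA_main hMX hLA hRA t W L hS z (by rw [hz]; positivity) (by
    rw [hz]
    apply one_div_le_one_div_of_le <;> linarith)
  refine le_trans ?_ h
  rw [hz]
  unfold VA_g
  have e1 : Real.log (1 / (4 * t)) - Real.log (1 / (8 * t)) = Real.log 2 := by
    rw [← Real.log_div (by positivity) (by positivity)]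
    congr 1
    field_simp
    norm_num
  have e2 : (1 / (8 * t)) ^ 2 / (1 / (4 * t)) ^ 2 = 1 / 4 := by
    field_simp
    norm_num
  rw [e2, e1]
  have := Real.log_two_gt_d9
  linarith

end

end Pool.Agent.DL
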